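import Mathlib

set_option autoImplicit false

/-! # Many pairwise coprime triples in the residue class `1` modulo `210` -/

namespace Pool.Agent.U580.FC

open Finset

/-- the elements of an interval with a given divisor of `210 u + 1` -/
def Dv (a A m : ℕ) : Finset ℕ := (Ico a (a + A)).filter fun u => m ∣ 210 * u + 1

theorem card_Dv (a A m : ℕ) (hm : 0 < m) : (Dv a A m).card ≤ A / m + 1 := by
  have hmaps : ∀ u ∈ Dv a A m, (u - a) / m ∈ Finset.range (A / m + 1) := by
    intro u hu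
    have h1 := Finset.mem_Ico.1 (Finset.mem_filter.1 hu).1
    rw [Finset.mem_range, Nat.lt_succ_iff]
    exact Nat.div_le_div_right (by omega)
  have hinj : Set.InjOn (fun u => (u - a) / m) (Dv a A m : Set ℕ) := by
    have key : ∀ u w : ℕ, u ∈ Dv a A m → w ∈ Dv a A m → (u - a) / m = (w - a) / m → u ≤ w → u = w := by
      intro u w hu hw huw hle
      have h1 := Finset.mem_Ico.1 (Finset.mem_filter.1 hu).1
      have h2 := Finset.mem_Ico.1 (Finset.mem_filter.1 hw).1
      have h3 := (Finset.mem_filter.1 hu).2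
      have h4 := (Finset.mem_filter.1 hw).2
      have h5 : m ∣ 210 * (w - u) := by
        have := Nat.dvd_sub h4 h3
        have e : 210 * w + 1 - (210 * u + 1) = 210 * (w - u) := by omega
        rwa [e] at this
      have h6 : Nat.Coprime m 210 := by
        have h7 : m.gcd 210 ∣ 1 := by
          have h8 : m.gcd 210 ∣ 210 * u + 1 := (Nat.gcd_dvd_left _ _).trans h3
          have h9 : m.gcd 210 ∣ 210 * u := (Nat.gcd_dvd_right _ _).mul_right u
          exact (Nat.dvd_add_right h9).1 h8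
        exact Nat.dvd_one.1 h7
      have h7 : m ∣ w - u := h6.dvd_of_dvd_mul_left h5
      by_contra hne
      have h8 : m ≤ w - u := Nat.le_of_dvd (by omega) h7
      have h9 : (u - a) / m + 1 ≤ (w - a) / m := by
        have e : (u - a) / m + 1 = (u - a + m) / m := (Nat.add_div_right _ hm).symm
        rw [e]
        exact Nat.div_le_div_right (by omega)
      omega
    intro u hu w hw huw
    rcases le_total u w with h | h
    · exact key u w hu hw huw h
    · exact (key w u hw hu huw.symm h).symm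
  have := Finset.card_le_card_of_injOn _ hmaps hinj
  rwa [Finset.card_range] at this

/-- the pairs which are not coprime -/
def NC (a A b B : ℕ) : Finset (ℕ × ℕ) :=
  (Ico a (a + A) ×ˢ Ico b (b + B)).filter fun z => ¬ Nat.Coprime (210 * z.1 + 1) (210 * z.2 + 1)

theorem odd_part {p : ℕ} (hp : p.Prime) {u : ℕ} (h : p ∣ 210 * u + 1) : ∃ k, 5 ≤ k ∧ p = 2 * k + 1 := by
  have h2 : ∀ d, d ∣ 210 → p = d → False := by
    intro d hd hpd
    rw [← hpd] at hd
    have := (Nat.dvd_add_right (hd.mul_right u)).1 h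
    exact hp.one_lt.ne' (Nat.dvd_one.1 this)
  have h3 : p ≠ 2 := fun e => h2 2 (by decide) e
  have h4 : p ≠ 3 := fun e => h2 3 (by decide) e
  have h5 : p ≠ 5 := fun e => h2 5 (by decide) e
  have h7 : p ≠ 7 := fun e => h2 7 (by decide) e
  have h9 : p ≠ 9 := by
    intro e
    rw [e] at hp
    exact absurd hp (by decide)
  obtain ⟨k, hk⟩ := hp.odd_of_ne_two h3
  refine ⟨k, ?_, hk⟩
  have := hp.two_le
  omega

theorem NC_sub (a A B : ℕ) :
    NC a A 0 B ⊆ (Ico 5 (105 * B)).biUnion fun k => Dv a A (2 * k + 1) ×ˢ Dv 0 B (2 * k + 1) := by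
  rintro ⟨u, w⟩ h
  obtain ⟨h1, h2⟩ := Finset.mem_filter.1 h
  obtain ⟨h3, h4⟩ := Finset.mem_product.1 h1
  obtain ⟨p, hp, hpu, hpw⟩ := Nat.Prime.not_coprime_iff_dvd.1 h2
  obtain ⟨k, hk, rfl⟩ := odd_part hp hpu
  rw [Finset.mem_biUnion]
  refine ⟨k, Finset.mem_Ico.2 ⟨hk, ?_⟩, Finset.mem_product.2 ⟨Finset.mem_filter.2 ⟨h3, hpu⟩,
    Finset.mem_filter.2 ⟨h4, hpw⟩⟩⟩
  have h5 := Nat.le_of_dvd (Nat.succ_pos _) hpw
  have h6 := (Finset.mem_Ico.1 h4).2
  simp only at h5 h6
  omega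

theorem term_le (a A B k : ℕ) (hk : 5 ≤ k) (hB : 1 ≤ B) (hAB : B ≤ A) :
    (((Dv a A (2 * k + 1)).card * (Dv 0 B (2 * k + 1)).card : ℕ) : ℝ) ≤
      A * B * (1 / k - 1 / (k + 1)) + 2 * A / B := by
  have hkr : (5 : ℝ) ≤ k := by exact_mod_cast hk
  have hBr : (1 : ℝ) ≤ B := by exact_mod_cast hB
  have hABr : (B : ℝ) ≤ A := by exact_mod_cast hAB
  have hA0 : (0 : ℝ) < A := by linarith
  have h1 := card_Dv a A (2 * k + 1) (by omega)
  have h2 := card_Dv 0 B (2 * k + 1) (by omega)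
  have hm0 : (0 : ℝ) < 2 * k + 1 := by linarith
  have h1r : ((Dv a A (2 * k + 1)).card : ℝ) ≤ A / (2 * k + 1) + 1 := by
    calc ((Dv a A (2 * k + 1)).card : ℝ) ≤ ((A / (2 * k + 1) + 1 : ℕ) : ℝ) := by exact_mod_cast h1
      _ = ((A / (2 * k + 1) : ℕ) : ℝ) + 1 := by push_cast; ring
      _ ≤ A / (2 * k + 1) + 1 := by
        have := @Nat.cast_div_le ℝ _ _ _ A (2 * k + 1)
        push_cast at this ⊢
        linarith
  have hfrac : (1 : ℝ) / k - 1 / (k + 1) = 1 / (k * (k + 1)) := by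
    field_simp
    ring
  have hfrac0 : (0 : ℝ) ≤ A * B * (1 / k - 1 / (k + 1)) := by
    rw [hfrac]
    positivity
  rw [Nat.cast_mul]
  rcases le_or_gt (2 * k + 1) B with h | h
  · have hr : (2 * k + 1 : ℝ) ≤ B := by exact_mod_cast h
    have h2r : ((Dv 0 B (2 * k + 1)).card : ℝ) ≤ B / (2 * k + 1) + 1 := by
      calc ((Dv 0 B (2 * k + 1)).card : ℝ) ≤ ((B / (2 * k + 1) + 1 : ℕ) : ℝ) := by exact_mod_cast h2
        _ = ((B / (2 * k + 1) : ℕ) : ℝ) + 1 := by push_cast; ring
        _ ≤ B / (2 * k + 1) + 1 := by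
          have := @Nat.cast_div_le ℝ _ _ _ B (2 * k + 1)
          push_cast at this ⊢
          linarith
    have h3 : (1 : ℝ) ≤ B / (2 * k + 1) := by rw [le_div_iff₀ hm0]; linarith
    have h4 : (1 : ℝ) ≤ A / (2 * k + 1) := by rw [le_div_iff₀ hm0]; linarith
    calc ((Dv a A (2 * k + 1)).card : ℝ) * ((Dv 0 B (2 * k + 1)).card : ℝ)
        ≤ (2 * (A / (2 * k + 1))) * (2 * (B / (2 * k + 1))) :=
          mul_le_mul (by linarith) (by linarith) (Nat.cast_nonneg _) (by positivity)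
      _ = A * B * (4 / (2 * k + 1) ^ 2) := by
          field_simp
          ring
      _ ≤ A * B * (1 / (k * (k + 1))) := by
          refine mul_le_mul_of_nonneg_left ?_ (by positivity)
          rw [div_le_div_iff₀ (by positivity) (by positivity)]
          nlinarith
      _ = A * B * (1 / k - 1 / (k + 1)) := by rw [hfrac]
      _ ≤ _ := by
          have : (0 : ℝ) ≤ 2 * A / B := by positivity
          linarith
  · have h2' : (Dv 0 B (2 * k + 1)).card ≤ 1 := by
      rw [Nat.div_eq_of_lt h] at h2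
      exact h2
    have h2r : ((Dv 0 B (2 * k + 1)).card : ℝ) ≤ 1 := by exact_mod_cast h2'
    have hr : (B : ℝ) ≤ 2 * k + 1 := by exact_mod_cast h.le
    have h3 : (A : ℝ) / (2 * k + 1) ≤ A / B := div_le_div_of_nonneg_left hA0.le (by linarith) hr
    have h4 : (1 : ℝ) ≤ A / B := by rw [le_div_iff₀ (by linarith)]; linarith
    calc ((Dv a A (2 * k + 1)).card : ℝ) * ((Dv 0 B (2 * k + 1)).card : ℝ)
        ≤ (A / B + A / B) * 1 :=
          mul_le_mul (by linarith) h2r (Nat.cast_nonneg _) (by positivity)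
      _ = 2 * A / B := by ring
      _ ≤ _ := by linarith

theorem sum_tele (K : ℕ) : ∑ k ∈ Ico 5 K, ((1 : ℝ) / k - 1 / (k + 1)) ≤ 1 / 5 := by
  rcases Nat.lt_or_ge K 5 with h | h
  · rw [Finset.Ico_eq_empty (by omega), Finset.sum_empty]
    norm_num
  · have : ∑ k ∈ Ico 5 K, ((1 : ℝ) / k - 1 / (k + 1)) = 1 / 5 - 1 / K := by
      induction K, h using Nat.le_induction with
      | base => simp
      | succ K hK ih =>
        rw [Finset.sum_Ico_succ_top hK, ih]
        push_cast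
        ring
    rw [this]
    have : (0 : ℝ) ≤ 1 / K := by positivity
    linarith

theorem card_NC (a A B : ℕ) (hB : 1 ≤ B) (hAB : B ≤ A) :
    ((NC a A 0 B).card : ℝ) ≤ A * B / 5 + 210 * A := by
  have h1 : (NC a A 0 B).card ≤ ∑ k ∈ Ico 5 (105 * B),
      (Dv a A (2 * k + 1)).card * (Dv 0 B (2 * k + 1)).card := by
    refine (Finset.card_le_card (NC_sub a A B)).trans (Finset.card_biUnion_le.trans (le_of_eq ?_))
    exact Finset.sum_congr rfl fun k _ => Finset.card_product _ _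
  have h2 : ((NC a A 0 B).card : ℝ) ≤ ∑ k ∈ Ico 5 (105 * B),
      (((Dv a A (2 * k + 1)).card * (Dv 0 B (2 * k + 1)).card : ℕ) : ℝ) := by exact_mod_cast h1
  refine h2.trans ((Finset.sum_le_sum fun k hk =>
    term_le a A B k (Finset.mem_Ico.1 hk).1 hB hAB).trans ?_)
  rw [Finset.sum_add_distrib, ← Finset.mul_sum, Finset.sum_const, Nat.card_Ico, nsmul_eq_mul]
  have hBr : (1 : ℝ) ≤ B := by exact_mod_cast hB
  have hA0 : (0 : ℝ) ≤ A := Nat.cast_nonneg _
  have h3 : (A * B : ℝ) * ∑ k ∈ Ico 5 (105 * B), ((1 : ℝ) / k - 1 / (k + 1)) ≤ A * B * (1 / 5) :=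
    mul_le_mul_of_nonneg_left (sum_tele _) (by positivity)
  have h4 : ((105 * B - 5 : ℕ) : ℝ) * (2 * A / B) ≤ 105 * B * (2 * A / B) := by
    refine mul_le_mul_of_nonneg_right ?_ (by positivity)
    have : (105 * B - 5 : ℕ) ≤ 105 * B := Nat.sub_le _ _
    exact_mod_cast this
  have h5 : (105 : ℝ) * B * (2 * A / B) = 210 * A := by
    field_simp
    ring
  linarith

end Pool.Agent.U580.FC
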