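import Mathlib

set_option autoImplicit false

/-! # Counting the triples of perfect powers with hyperbolic exponents -/

namespace Pool.Agent.U580.FC

open Finset

/-- the `k`-th powers up to `N` -/
noncomputable def PS (k N : ℕ) : Finset ℕ := by
  classical
  exact (Icc 1 N).filter fun X => ∃ a : ℕ, X = a ^ k

/-- the powers with an exponent `≥ j` up to `N` -/
noncomputable def RS (j N : ℕ) : Finset ℕ := by
  classical
  exact (Icc 1 N).filter fun X => ∃ k a : ℕ, j ≤ k ∧ X = a ^ k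

theorem card_PS {k N A : ℕ} (hA : ∀ a : ℕ, a ^ k ≤ N → a ≤ A) (hk : k ≠ 0) : (PS k N).card ≤ A := by
  classical
  have h : PS k N ⊆ (Icc 1 A).image (fun a => a ^ k) := by
    intro X hX
    unfold PS at hX
    obtain ⟨h1, a, rfl⟩ := Finset.mem_filter.1 hX
    rw [Finset.mem_Icc] at h1
    refine Finset.mem_image.2 ⟨a, Finset.mem_Icc.2 ⟨?_, hA a h1.2⟩, rfl⟩
    rcases Nat.eq_zero_or_pos a with h | h
    · subst h
      rw [zero_pow hk] at h1
      omega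
    · exact h
  refine (Finset.card_le_card h).trans (Finset.card_image_le.trans ?_)
  rw [Nat.card_Icc]
  omega

theorem card_PS_pow {k m W : ℕ} (hk : k ≠ 0) : (PS k (W ^ (m * k))).card ≤ W ^ m := by
  refine card_PS (fun a ha => ?_) hk
  rw [pow_mul] at ha
  exact le_of_pow_le_pow_left₀ hk (Nat.zero_le _) ha

theorem card_RS {j N A : ℕ} (hA : ∀ a : ℕ, a ^ j ≤ N → a ≤ A) (hj : j ≠ 0) :
    (RS j N).card ≤ (Nat.log 2 N + 1) * A := by
  classical
  have h : RS j N ⊆ (Icc j (j + Nat.log 2 N)).biUnion fun k => PS k N := by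
    intro X hX
    unfold RS at hX
    obtain ⟨h1, k, a, hk, rfl⟩ := Finset.mem_filter.1 hX
    have h1' := Finset.mem_Icc.1 h1
    rw [Finset.mem_biUnion]
    rcases Nat.lt_or_ge a 2 with h | h
    · refine ⟨j, Finset.mem_Icc.2 ⟨le_rfl, by omega⟩, ?_⟩
      unfold PS
      refine Finset.mem_filter.2 ⟨h1, ?_⟩
      interval_cases a
      · exfalso
        rw [zero_pow (by omega)] at h1'
        omega
      · exact ⟨1, by rw [one_pow, one_pow]⟩
    · refine ⟨k, Finset.mem_Icc.2 ⟨hk, ?_⟩, ?_⟩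
      · have h2 : 2 ^ k ≤ N := (Nat.pow_le_pow_left h k).trans h1'.2
        have h3 : k ≤ Nat.log 2 N := Nat.le_log_of_pow_le (by norm_num) h2
        omega
      · unfold PS
        exact Finset.mem_filter.2 ⟨h1, a, rfl⟩
  refine (Finset.card_le_card h).trans (Finset.card_biUnion_le.trans ?_)
  have h2 : ∀ k ∈ Icc j (j + Nat.log 2 N), (PS k N).card ≤ A := by
    intro k hk
    have hk' := (Finset.mem_Icc.1 hk).1
    refine card_PS (fun a ha => hA a ?_) (by omega)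
    rcases Nat.eq_zero_or_pos a with h | h
    · subst h
      rw [zero_pow hj]
      exact Nat.zero_le _
    · exact (Nat.pow_le_pow_right h hk').trans ha
  refine (Finset.sum_le_sum h2).trans ?_
  rw [Finset.sum_const, Nat.card_Icc, smul_eq_mul]
  exact Nat.mul_le_mul_right _ (by omega)

theorem exists_root (j N : ℕ) (hj : j ≠ 0) : ∃ A : ℕ, A ^ j ≤ N ∧ ∀ a : ℕ, a ^ j ≤ N → a ≤ A := by
  refine ⟨Nat.findGreatest (fun a => a ^ j ≤ N) N, ?_, fun a ha => ?_⟩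
  · have h0 : (0 : ℕ) ^ j ≤ N := by rw [zero_pow hj]; exact Nat.zero_le _
    exact Nat.findGreatest_spec (P := fun a => a ^ j ≤ N) (Nat.zero_le N) h0
  · refine Nat.le_findGreatest ?_ ha
    exact (Nat.le_self_pow hj a).trans ha

theorem sq_le_two_pow (w : ℕ) : (w + 1) ^ 2 ≤ 4 * 2 ^ w := by
  induction w with
  | zero => norm_num
  | succ w ih =>
    rcases Nat.lt_or_ge w 2 with h | h
    · interval_cases w <;> norm_num
    · rw [pow_succ 2 w]
      nlinarith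

theorem log_sq (W : ℕ) (hW : 1 ≤ W) : (Nat.log 2 (W ^ 42) + 1) ^ 2 ≤ 7056 * W := by
  have h1 : W < 2 ^ (Nat.log 2 W + 1) := Nat.lt_pow_succ_log_self (by norm_num) W
  have h2 : W ^ 42 < 2 ^ ((Nat.log 2 W + 1) * 42) := by
    rw [pow_mul]
    exact Nat.pow_lt_pow_left h1 (by norm_num)
  have h3 : Nat.log 2 (W ^ 42) < (Nat.log 2 W + 1) * 42 :=
    Nat.log_lt_of_lt_pow (by positivity) h2
  have h4 : 2 ^ Nat.log 2 W ≤ W := Nat.pow_log_le_self 2 (by omega)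
  have h5 := sq_le_two_pow (Nat.log 2 W)
  calc (Nat.log 2 (W ^ 42) + 1) ^ 2 ≤ ((Nat.log 2 W + 1) * 42) ^ 2 := Nat.pow_le_pow_left (by omega) 2
    _ = 1764 * (Nat.log 2 W + 1) ^ 2 := by ring
    _ ≤ 1764 * (4 * 2 ^ Nat.log 2 W) := Nat.mul_le_mul_left _ h5
    _ ≤ 1764 * (4 * W) := Nat.mul_le_mul_left _ (Nat.mul_le_mul_left _ h4)
    _ = 7056 * W := by ring

theorem RS4 (W : ℕ) (hW : 1 ≤ W) : (RS 4 (W ^ 42)).card ≤ 7056 * W ^ 11 := by
  obtain ⟨A, hA1, hA2⟩ := exists_root 4 (W ^ 42) (by norm_num)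
  refine (card_RS hA2 (by norm_num)).trans ?_
  have hl := log_sq W hW
  set l := Nat.log 2 (W ^ 42) + 1
  refine le_of_pow_le_pow_left₀ (n := 4) (by norm_num) (Nat.zero_le _) ?_
  calc (l * A) ^ 4 = (l ^ 2) ^ 2 * A ^ 4 := by ring
    _ ≤ (7056 * W) ^ 2 * W ^ 42 := Nat.mul_le_mul (Nat.pow_le_pow_left hl 2) hA1
    _ = 7056 ^ 2 * W ^ 44 := by ring
    _ ≤ 7056 ^ 4 * W ^ 44 := Nat.mul_le_mul_right _ (by norm_num)
    _ = (7056 * W ^ 11) ^ 4 := by ring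

theorem RS5 (W : ℕ) (hW : 1 ≤ W) : (RS 5 (W ^ 42)).card ≤ 7056 * W ^ 9 := by
  obtain ⟨A, hA1, hA2⟩ := exists_root 5 (W ^ 42) (by norm_num)
  refine (card_RS hA2 (by norm_num)).trans ?_
  have hl := log_sq W hW
  have hl1 : 1 ≤ Nat.log 2 (W ^ 42) + 1 := by omega
  set l := Nat.log 2 (W ^ 42) + 1
  refine le_of_pow_le_pow_left₀ (n := 5) (by norm_num) (Nat.zero_le _) ?_
  calc (l * A) ^ 5 = l ^ 5 * A ^ 5 := by ring
    _ ≤ l ^ 6 * W ^ 42 := Nat.mul_le_mul (Nat.pow_le_pow_right hl1 (by norm_num)) hA1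
    _ = (l ^ 2) ^ 3 * W ^ 42 := by ring
    _ ≤ (7056 * W) ^ 3 * W ^ 42 := Nat.mul_le_mul_right _ (Nat.pow_le_pow_left hl 3)
    _ = 7056 ^ 3 * W ^ 45 := by ring
    _ ≤ 7056 ^ 5 * W ^ 45 := Nat.mul_le_mul_right _ (by norm_num)
    _ = (7056 * W ^ 9) ^ 5 := by ring

theorem RS8 (W : ℕ) (hW : 1 ≤ W) : (RS 8 (W ^ 42)).card ≤ 7056 * W ^ 6 := by
  obtain ⟨A, hA1, hA2⟩ := exists_root 8 (W ^ 42) (by norm_num)
  refine (card_RS hA2 (by norm_num)).trans ?_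
  have hl := log_sq W hW
  set l := Nat.log 2 (W ^ 42) + 1
  refine le_of_pow_le_pow_left₀ (n := 8) (by norm_num) (Nat.zero_le _) ?_
  calc (l * A) ^ 8 = (l ^ 2) ^ 4 * A ^ 8 := by ring
    _ ≤ (7056 * W) ^ 4 * W ^ 42 := Nat.mul_le_mul (Nat.pow_le_pow_left hl 4) hA1
    _ = 7056 ^ 4 * W ^ 46 := by ring
    _ ≤ 7056 ^ 8 * W ^ 48 := Nat.mul_le_mul (by norm_num) (Nat.pow_le_pow_right hW (by norm_num))
    _ = (7056 * W ^ 6) ^ 8 := by ring

theorem RS_succ (j N : ℕ) : (RS j N).card ≤ (PS j N).card + (RS (j + 1) N).card := by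
  classical
  have h : RS j N ⊆ PS j N ∪ RS (j + 1) N := by
    intro X hX
    unfold RS at hX
    obtain ⟨h1, k, a, hk, rfl⟩ := Finset.mem_filter.1 hX
    rw [Finset.mem_union]
    rcases Nat.eq_or_lt_of_le hk with h | h
    · left
      unfold PS
      exact Finset.mem_filter.2 ⟨h1, a, by rw [h]⟩
    · right
      unfold RS
      exact Finset.mem_filter.2 ⟨h1, k, a, h, rfl⟩
  exact (Finset.card_le_card h).trans (Finset.card_union_le _ _)

theorem RS3 (W : ℕ) (hW : 1 ≤ W) : (RS 3 (W ^ 42)).card ≤ 7057 * W ^ 14 := by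
  have h1 : (RS 3 (W ^ 42)).card ≤ (PS 3 (W ^ 42)).card + (RS 4 (W ^ 42)).card := RS_succ 3 (W ^ 42)
  have h2 : (PS 3 (W ^ 42)).card ≤ W ^ 14 := card_PS_pow (k := 3) (m := 14) (by norm_num)
  have h3 := RS4 W hW
  have h4 : W ^ 11 ≤ W ^ 14 := Nat.pow_le_pow_right hW (by norm_num)
  omega

theorem RS7 (W : ℕ) (hW : 1 ≤ W) : (RS 7 (W ^ 42)).card ≤ 7057 * W ^ 6 := by
  have h1 : (RS 7 (W ^ 42)).card ≤ (PS 7 (W ^ 42)).card + (RS 8 (W ^ 42)).card := RS_succ 7 (W ^ 42)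
  have h2 : (PS 7 (W ^ 42)).card ≤ W ^ 6 := card_PS_pow (k := 7) (m := 6) (by norm_num)
  have h3 := RS8 W hW
  omega

/-- hyperbolic exponents -/
def Hyp (e : Fin 3 → ℕ) : Prop := (∀ i, 0 < e i) ∧ ∑ i, 1 / (e i : ℚ) < 1

/-- the values of the powers with hyperbolic exponents -/
def IsVal (v : Fin 3 → ℕ) : Prop :=
  (∀ i, 0 < v i) ∧ ∃ e : Fin 3 → ℕ, Hyp e ∧ ∀ i, ∃ a : ℕ, v i = a ^ e i

theorem hyp_nat {e : Fin 3 → ℕ} (h : Hyp e) :
    e 1 * e 2 + e 0 * e 2 + e 0 * e 1 < e 0 * e 1 * e 2 := by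
  obtain ⟨h1, h2⟩ := h
  rw [Fin.sum_univ_three] at h2
  have a0 : (0 : ℚ) < e 0 := by exact_mod_cast h1 0
  have a1 : (0 : ℚ) < e 1 := by exact_mod_cast h1 1
  have a2 : (0 : ℚ) < e 2 := by exact_mod_cast h1 2
  have h3 : 1 / (e 0 : ℚ) + 1 / (e 1 : ℚ) + 1 / (e 2 : ℚ) =
      ((e 1 : ℚ) * e 2 + e 0 * e 2 + e 0 * e 1) / (e 0 * e 1 * e 2) := by
    field_simp
  rw [h3, div_lt_one (by positivity)] at h2
  exact_mod_cast h2

theorem hyp_perm {e : Fin 3 → ℕ} (h : Hyp e) (σ : Equiv.Perm (Fin 3)) : Hyp (e ∘ σ) :=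
  ⟨fun i => h.1 _, by
    have := Equiv.sum_comp σ (fun i => 1 / (e i : ℚ))
    show ∑ i, 1 / (e (σ i) : ℚ) < 1
    rw [this]
    exact h.2⟩

/-- the three families of boxes -/
noncomputable def bx (N : ℕ) : Fin 3 → Fin 3 → Finset ℕ :=
  ![![PS 2 N, PS 3 N, RS 7 N], ![PS 2 N, RS 4 N, RS 5 N], ![RS 3 N, RS 3 N, RS 4 N]]

theorem sorted_cover {N : ℕ} {v e : Fin 3 → ℕ} (hv : ∀ i, 0 < v i) (hN : ∀ i, v i ≤ N) (he : Hyp e)
    (hp : ∀ i, ∃ a : ℕ, v i = a ^ e i) (h01 : e 0 ≤ e 1) (h12 : e 1 ≤ e 2) :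
    ∃ t : Fin 3, v ∈ Fintype.piFinset (bx N t) := by
  classical
  have h := hyp_nat he
  have hI : ∀ i, v i ∈ Icc 1 N := fun i => Finset.mem_Icc.2 ⟨hv i, hN i⟩
  have hR : ∀ i j, j ≤ e i → v i ∈ RS j N := by
    intro i j hij
    unfold RS
    obtain ⟨a, ha⟩ := hp i
    exact Finset.mem_filter.2 ⟨hI i, e i, a, hij, ha⟩
  have hP : ∀ i j, e i = j → v i ∈ PS j N := by
    intro i j hij
    unfold PS
    obtain ⟨a, ha⟩ := hp i
    exact Finset.mem_filter.2 ⟨hI i, a, by rw [← hij]; exact ha⟩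
  have hp0 := he.1 0
  rcases Nat.lt_or_ge (e 0) 3 with g0 | g0
  · rcases Nat.lt_or_ge (e 0) 2 with g1 | g1
    · exfalso
      have e0 : e 0 = 1 := by omega
      rw [e0] at h
      simp only [one_mul] at h
      omega
    · have e0 : e 0 = 2 := by omega
      rw [e0] at h
      rcases Nat.lt_or_ge (e 1) 4 with g2 | g2
      · rcases Nat.lt_or_ge (e 1) 3 with g3 | g3
        · exfalso
          have e1 : e 1 = 2 := by omega
          rw [e1] at h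
          omega
        · have e1 : e 1 = 3 := by omega
          rw [e1] at h
          refine ⟨0, Fintype.mem_piFinset.2 fun i => ?_⟩
          fin_cases i
          · exact hP 0 2 e0
          · exact hP 1 3 e1
          · exact hR 2 7 (by omega)
      · refine ⟨1, Fintype.mem_piFinset.2 fun i => ?_⟩
        have e2 : 5 ≤ e 2 := by
          by_contra hc
          have e2 : e 2 = 4 := by omega
          have e1 : e 1 = 4 := by omega
          rw [e1, e2] at h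
          omega
        fin_cases i
        · exact hP 0 2 e0
        · exact hR 1 4 g2
        · exact hR 2 5 e2
  · refine ⟨2, Fintype.mem_piFinset.2 fun i => ?_⟩
    have e2 : 4 ≤ e 2 := by
      by_contra hc
      have e2 : e 2 = 3 := by omega
      have e1 : e 1 = 3 := by omega
      have e0 : e 0 = 3 := by omega
      rw [e0, e1, e2] at h
      omega
    fin_cases i
    · exact hR 0 3 g0
    · exact hR 1 3 (by omega)
    · exact hR 2 4 e2

theorem cover {N : ℕ} {v : Fin 3 → ℕ} (hv : IsVal v) (hN : ∀ i, v i ≤ N) :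
    ∃ (σ : Equiv.Perm (Fin 3)) (t : Fin 3), v ∈ Fintype.piFinset fun i => bx N t (σ i) := by
  classical
  obtain ⟨hp, e, he, ha⟩ := hv
  set σ := Tuple.sort e with hσ
  have hmono : Monotone (e ∘ σ) := Tuple.monotone_sort e
  obtain ⟨t, ht⟩ := sorted_cover (N := N) (v := v ∘ σ) (e := e ∘ σ) (fun i => hp _) (fun i => hN _)
    (hyp_perm he σ) (fun i => ha _) (hmono (by decide)) (hmono (by decide))
  refine ⟨σ⁻¹, t, Fintype.mem_piFinset.2 fun i => ?_⟩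
  have := Fintype.mem_piFinset.1 ht (σ⁻¹ i)
  simpa using this

theorem card_bx (W : ℕ) (hW : 1 ≤ W) (t : Fin 3) : ∏ i, (bx (W ^ 42) t i).card ≤ 7057 ^ 3 * W ^ 41 := by
  have h2 : (PS 2 (W ^ 42)).card ≤ W ^ 21 := card_PS_pow (k := 2) (m := 21) (by norm_num)
  have h3 : (PS 3 (W ^ 42)).card ≤ W ^ 14 := card_PS_pow (k := 3) (m := 14) (by norm_num)
  have r3 := RS3 W hW
  have r4 := RS4 W hW
  have r5 := RS5 W hW
  have r7 := RS7 W hW
  fin_cases t
  · show ∏ i, ((![PS 2 (W ^ 42), PS 3 (W ^ 42), RS 7 (W ^ 42)] : Fin 3 → Finset ℕ) i).card ≤ _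
    rw [Fin.prod_univ_three]
    show (PS 2 (W ^ 42)).card * (PS 3 (W ^ 42)).card * (RS 7 (W ^ 42)).card ≤ _
    calc _ ≤ W ^ 21 * W ^ 14 * (7057 * W ^ 6) := Nat.mul_le_mul (Nat.mul_le_mul h2 h3) r7
      _ = 7057 * W ^ 41 := by ring
      _ ≤ _ := Nat.mul_le_mul_right _ (by norm_num)
  · show ∏ i, ((![PS 2 (W ^ 42), RS 4 (W ^ 42), RS 5 (W ^ 42)] : Fin 3 → Finset ℕ) i).card ≤ _
    rw [Fin.prod_univ_three]
    show (PS 2 (W ^ 42)).card * (RS 4 (W ^ 42)).card * (RS 5 (W ^ 42)).card ≤ _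
    calc _ ≤ W ^ 21 * (7056 * W ^ 11) * (7056 * W ^ 9) := Nat.mul_le_mul (Nat.mul_le_mul h2 r4) r5
      _ = 7056 ^ 2 * W ^ 41 := by ring
      _ ≤ _ := Nat.mul_le_mul_right _ (by norm_num)
  · show ∏ i, ((![RS 3 (W ^ 42), RS 3 (W ^ 42), RS 4 (W ^ 42)] : Fin 3 → Finset ℕ) i).card ≤ _
    rw [Fin.prod_univ_three]
    show (RS 3 (W ^ 42)).card * (RS 3 (W ^ 42)).card * (RS 4 (W ^ 42)).card ≤ _
    calc _ ≤ (7057 * W ^ 14) * (7057 * W ^ 14) * (7056 * W ^ 11) :=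
          Nat.mul_le_mul (Nat.mul_le_mul r3 r3) r4
      _ = 7057 ^ 2 * 7056 * W ^ 39 := by ring
      _ ≤ 7057 ^ 3 * W ^ 41 := Nat.mul_le_mul (by norm_num) (Nat.pow_le_pow_right hW (by norm_num))

/-- the value triples up to `N` -/
noncomputable def VT (N : ℕ) : Finset (Fin 3 → ℕ) := by
  classical
  exact (Fintype.piFinset fun _ : Fin 3 => Icc 1 N).filter IsVal

theorem mem_VT {N : ℕ} {v : Fin 3 → ℕ} : v ∈ VT N ↔ IsVal v ∧ ∀ i, v i ≤ N := by
  classical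
  unfold VT
  rw [Finset.mem_filter, Fintype.mem_piFinset]
  constructor
  · rintro ⟨h1, h2⟩
    exact ⟨h2, fun i => (Finset.mem_Icc.1 (h1 i)).2⟩
  · rintro ⟨h1, h2⟩
    exact ⟨fun i => Finset.mem_Icc.2 ⟨h1.1 i, h2 i⟩, h1⟩

/-- **there are `O(N ^ (41/42))` value triples up to `N`** -/
theorem card_VT (W : ℕ) (hW : 1 ≤ W) : (VT (W ^ 42)).card ≤ 18 * 7057 ^ 3 * W ^ 41 := by
  classical
  have h : VT (W ^ 42) ⊆ (Finset.univ : Finset (Equiv.Perm (Fin 3) × Fin 3)).biUnion fun z =>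
      Fintype.piFinset fun i => bx (W ^ 42) z.2 (z.1 i) := by
    intro v hv
    obtain ⟨h1, h2⟩ := mem_VT.1 hv
    obtain ⟨σ, t, h3⟩ := cover h1 h2
    exact Finset.mem_biUnion.2 ⟨(σ, t), Finset.mem_univ _, h3⟩
  refine (Finset.card_le_card h).trans (Finset.card_biUnion_le.trans ?_)
  have h2 : ∀ z ∈ (Finset.univ : Finset (Equiv.Perm (Fin 3) × Fin 3)),
      (Fintype.piFinset fun i => bx (W ^ 42) z.2 (z.1 i)).card ≤ 7057 ^ 3 * W ^ 41 := by
    intro z _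
    rw [Fintype.card_piFinset, Equiv.prod_comp z.1 (fun i => (bx (W ^ 42) z.2 i).card)]
    exact card_bx W hW z.2
  refine (Finset.sum_le_sum h2).trans ?_
  rw [Finset.sum_const, Finset.card_univ, Fintype.card_prod, Fintype.card_perm, Fintype.card_fin,
    smul_eq_mul]
  exact le_of_eq (by rw [show Nat.factorial 3 = 6 from rfl]; ring)

end Pool.Agent.U580.FC
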