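import Mathlib
import Pool.Agent.U580.FC.Vals

set_option autoImplicit false

/-! # The upper bound for random coefficients -/

namespace Pool.Agent.U580.FC

open Finset

/-- the value triples of pairwise coprime numbers -/
def IsFC (v : Fin 3 → ℕ) : Prop := IsVal v ∧ ∀ i j, i ≠ j → Nat.Coprime (v i) (v j)

theorem sum_rot (f : Fin 3 → ℤ) (i : Fin 3) : ∑ j, f j = f i + f (i + 1) + f (i + 2) := by
  rw [Fin.sum_univ_three]
  fin_cases i
  · rfl
  · show f 0 + f 1 + f 2 = f 1 + f 2 + f 0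
    ring
  · show f 0 + f 1 + f 2 = f 2 + f 0 + f 1
    ring

theorem three_cases (i j : Fin 3) : j = i ∨ j = i + 1 ∨ j = i + 2 := by
  revert i j; decide

/-- the solutions of the linear equation -/
noncomputable def Sol (H : ℕ) (v : Fin 3 → ℕ) : Finset (Fin 3 → ℤ) := by
  classical
  exact (Fintype.piFinset fun _ : Fin 3 => Icc (-(H : ℤ)) H).filter fun A => ∑ i, A i * (v i : ℤ) = 0

theorem mem_Sol {H : ℕ} {v : Fin 3 → ℕ} {A : Fin 3 → ℤ} :
    A ∈ Sol H v ↔ (∀ i, |A i| ≤ H) ∧ ∑ i, A i * (v i : ℤ) = 0 := by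
  classical
  unfold Sol
  rw [Finset.mem_filter, Fintype.mem_piFinset]
  simp only [Finset.mem_Icc, abs_le]

theorem card_Sol (H : ℕ) (v : Fin 3 → ℕ) (i : Fin 3) (hv : ∀ i, 0 < v i)
    (hc : Nat.Coprime (v i) (v (i + 1))) :
    (Sol H v).card ≤ (2 * H + 1) * (2 * H / v i + 1) := by
  classical
  obtain ⟨M, hM⟩ : ∃ M : ℤ, M = (v i : ℤ) := ⟨_, rfl⟩
  have hM0 : 0 < M := by rw [hM]; exact_mod_cast hv i
  have hmaps : ∀ A ∈ Sol H v, (A (i + 2), (A (i + 1) + H) / M) ∈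
      (Icc (-(H : ℤ)) H) ×ˢ (Icc (0 : ℤ) ((2 * H / v i : ℕ) : ℤ)) := by
    intro A hA
    obtain ⟨h1, -⟩ := mem_Sol.1 hA
    rw [Finset.mem_product, Finset.mem_Icc, Finset.mem_Icc]
    refine ⟨abs_le.1 (h1 _), Int.ediv_nonneg ?_ hM0.le, ?_⟩
    · have := (abs_le.1 (h1 (i + 1))).1
      show 0 ≤ A (i + 1) + H
      linarith
    · show (A (i + 1) + H) / M ≤ _
      rw [Int.natCast_div, ← hM]
      refine Int.ediv_le_ediv hM0 ?_
      have := (abs_le.1 (h1 (i + 1))).2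
      push_cast
      linarith
  have hinj : Set.InjOn (fun A : Fin 3 → ℤ => (A (i + 2), (A (i + 1) + H) / M)) (Sol H v : Set _) := by
    intro A hA B hB hAB
    have hA' := (mem_Sol.1 hA).2
    have hB' := (mem_Sol.1 hB).2
    rw [sum_rot _ i] at hA' hB'
    simp only [Prod.mk.injEq] at hAB
    obtain ⟨h2, h3⟩ := hAB
    rw [← h2] at hB'
    have h4 : (A i - B i) * M = (B (i + 1) - A (i + 1)) * (v (i + 1) : ℤ) := by
      rw [hM]
      linear_combination hA' - hB'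
    have h5 : IsCoprime M (v (i + 1) : ℤ) := by
      rw [hM]
      exact Nat.isCoprime_iff_coprime.2 hc
    have h6 : M ∣ B (i + 1) - A (i + 1) := h5.dvd_of_dvd_mul_right (Dvd.intro_left _ h4)
    have h7 : B (i + 1) - A (i + 1) = 0 := by
      refine Int.eq_zero_of_abs_lt_dvd h6 ?_
      have e1 := Int.emod_add_mul_ediv (A (i + 1) + H) M
      have e2 := Int.emod_add_mul_ediv (B (i + 1) + H) M
      have e3 := Int.emod_nonneg (A (i + 1) + H) hM0.ne'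
      have e4 := Int.emod_lt_of_pos (A (i + 1) + H) hM0
      have e5 := Int.emod_nonneg (B (i + 1) + H) hM0.ne'
      have e6 := Int.emod_lt_of_pos (B (i + 1) + H) hM0
      rw [← h3] at e2
      rw [abs_lt]
      constructor <;> linarith
    have h8 : A i = B i := by
      rw [h7, zero_mul] at h4
      rcases mul_eq_zero.1 h4 with h | h
      · linarith
      · exact absurd h hM0.ne'
    funext j
    rcases three_cases i j with rfl | rfl | rfl
    · exact h8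
    · linarith
    · exact h2
  refine (Finset.card_le_card_of_injOn _ hmaps hinj).trans ?_
  rw [Finset.card_product, Int.card_Icc, Int.card_Icc]
  refine Nat.mul_le_mul ?_ ?_
  · omega
  · generalize 2 * H / v i = q
    omega

/-- the largest value -/
def hgt (v : Fin 3 → ℕ) : ℕ := Finset.univ.sup v

theorem le_hgt (v : Fin 3 → ℕ) (i : Fin 3) : v i ≤ hgt v := Finset.le_sup (Finset.mem_univ i)

theorem exists_hgt (v : Fin 3 → ℕ) : ∃ i, v i = hgt v := by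
  obtain ⟨i, -, hi⟩ := Finset.exists_mem_eq_sup Finset.univ Finset.univ_nonempty v
  exact ⟨i, hi.symm⟩

theorem card_Sol' {H : ℕ} (hH : 1 ≤ H) {v : Fin 3 → ℕ} (hv : IsFC v) :
    ((Sol H v).card : ℝ) ≤ 6 * (H : ℝ) ^ 2 * (1 / hgt v) + 3 * H := by
  obtain ⟨i, hi⟩ := exists_hgt v
  have h1 := card_Sol H v i hv.1.1 (hv.2 i (i + 1) (by fin_cases i <;> decide))
  rw [hi] at h1
  have hpos : 0 < hgt v := by rw [← hi]; exact hv.1.1 i
  have hposr : (0 : ℝ) < hgt v := by exact_mod_cast hpos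
  have h2 : ((2 * H / hgt v : ℕ) : ℝ) ≤ (2 * H : ℝ) * (1 / hgt v) := by
    refine Nat.cast_div_le.trans (le_of_eq ?_)
    push_cast
    ring
  have hHr : (1 : ℝ) ≤ H := by exact_mod_cast hH
  calc ((Sol H v).card : ℝ) ≤ (2 * H + 1 : ℝ) * (((2 * H / hgt v : ℕ) : ℝ) + 1) := by exact_mod_cast h1
    _ ≤ (3 * H : ℝ) * ((2 * H : ℝ) * (1 / hgt v) + 1) := by
        refine mul_le_mul (by linarith) (by linarith) (by positivity) (by positivity)
    _ = _ := by ring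

/-- the value triples in a range of heights -/
noncomputable def Sh (T U : ℕ) : Finset (Fin 3 → ℕ) := by
  classical
  exact (VT (U ^ 42)).filter fun v => T ^ 42 ≤ hgt v

theorem mem_Sh {T U : ℕ} {v : Fin 3 → ℕ} :
    v ∈ Sh T U ↔ IsVal v ∧ (∀ i, v i ≤ U ^ 42) ∧ T ^ 42 ≤ hgt v := by
  classical
  unfold Sh
  rw [Finset.mem_filter, mem_VT, and_assoc]

/-- the constant -/
def K1 : ℕ := 18 * 7057 ^ 3

theorem card_Sh (T U : ℕ) (hU : 1 ≤ U) : (Sh T U).card ≤ K1 * U ^ 41 := by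
  classical
  unfold Sh
  exact (Finset.card_filter_le _ _).trans (card_VT U hU)

theorem shell (T : ℕ) (hT : 1 ≤ T) (U : ℕ) (hU : 1 ≤ U) :
    ∑ v ∈ Sh T U, 1 / (hgt v : ℝ) ≤ K1 * (U : ℝ) ^ 41 / (T : ℝ) ^ 42 := by
  have hTr : (0 : ℝ) < T := by exact_mod_cast hT
  have h1 : ∀ v ∈ Sh T U, 1 / (hgt v : ℝ) ≤ 1 / (T : ℝ) ^ 42 := by
    intro v hv
    have h2 : ((T : ℝ) ^ 42) ≤ hgt v := by exact_mod_cast (mem_Sh.1 hv).2.2
    exact one_div_le_one_div_of_le (by positivity) h2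
  refine (Finset.sum_le_sum h1).trans ?_
  rw [Finset.sum_const, nsmul_eq_mul, mul_one_div]
  refine div_le_div_of_nonneg_right ?_ (by positivity)
  exact_mod_cast card_Sh T U hU

theorem dyadic (n : ℕ) : ∀ T : ℕ, 1 ≤ T →
    ∑ v ∈ Sh T (2 ^ n * T), 1 / (hgt v : ℝ) ≤ K1 * 2 ^ 42 / (T : ℝ) := by
  classical
  induction n with
  | zero =>
    intro T hT
    have hTr : (0 : ℝ) < T := by exact_mod_cast hT
    have hT1 : (1 : ℝ) ≤ T := by exact_mod_cast hT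
    rw [pow_zero, one_mul]
    refine (shell T hT T hT).trans ?_
    rw [div_le_div_iff₀ (by positivity) hTr]
    have e : (K1 : ℝ) * (T : ℝ) ^ 41 * T = K1 * (T : ℝ) ^ 42 := by ring
    rw [e]
    have : (0 : ℝ) ≤ K1 * (T : ℝ) ^ 42 := by positivity
    nlinarith
  | succ n ih =>
    intro T hT
    have hTr : (0 : ℝ) < T := by exact_mod_cast hT
    have hsub : Sh T (2 ^ (n + 1) * T) ⊆ Sh T (2 * T) ∪ Sh (2 * T) (2 ^ n * (2 * T)) := by
      intro v hv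
      obtain ⟨h1, h2, h3⟩ := mem_Sh.1 hv
      rw [Finset.mem_union]
      rcases le_total (hgt v) ((2 * T) ^ 42) with h | h
      · left
        exact mem_Sh.2 ⟨h1, fun i => (le_hgt v i).trans h, h3⟩
      · right
        refine mem_Sh.2 ⟨h1, ?_, h⟩
        have e : 2 ^ (n + 1) * T = 2 ^ n * (2 * T) := by ring
        rw [e] at h2
        exact h2
    have h0 : ∀ v ∈ Sh T (2 * T) ∪ Sh (2 * T) (2 ^ n * (2 * T)), 0 ≤ 1 / (hgt v : ℝ) := fun v _ => by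
      positivity
    refine (Finset.sum_le_sum_of_subset_of_nonneg hsub (fun v hv _ => h0 v hv)).trans ?_
    have h5 := Finset.sum_union_inter (s₁ := Sh T (2 * T)) (s₂ := Sh (2 * T) (2 ^ n * (2 * T)))
      (f := fun v => 1 / (hgt v : ℝ))
    have h6 : 0 ≤ ∑ v ∈ Sh T (2 * T) ∩ Sh (2 * T) (2 ^ n * (2 * T)), 1 / (hgt v : ℝ) :=
      Finset.sum_nonneg fun v _ => by positivity
    refine (show _ ≤ ∑ v ∈ Sh T (2 * T), 1 / (hgt v : ℝ) +
      ∑ v ∈ Sh (2 * T) (2 ^ n * (2 * T)), 1 / (hgt v : ℝ) by linarith).trans ?_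
    have h1 := shell T hT (2 * T) (by omega)
    have h2 := ih (2 * T) (by omega)
    have e1 : (K1 : ℝ) * ((2 * T : ℕ) : ℝ) ^ 41 / (T : ℝ) ^ 42 = K1 * 2 ^ 41 / T := by
      push_cast
      field_simp
    have e2 : (K1 : ℝ) * 2 ^ 42 / ((2 * T : ℕ) : ℝ) = K1 * 2 ^ 41 / T := by
      push_cast
      field_simp
    rw [e1] at h1
    rw [e2] at h2
    refine (add_le_add h1 h2).trans (le_of_eq ?_)
    ring

theorem tail_sum (T U : ℕ) (hT : 1 ≤ T) : ∑ v ∈ Sh T U, 1 / (hgt v : ℝ) ≤ K1 * 2 ^ 42 / (T : ℝ) := by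
  classical
  refine le_trans ?_ (dyadic U T hT)
  refine Finset.sum_le_sum_of_subset_of_nonneg ?_ (fun v _ _ => by positivity)
  intro v hv
  obtain ⟨h1, h2, h3⟩ := mem_Sh.1 hv
  refine mem_Sh.2 ⟨h1, fun i => (h2 i).trans (Nat.pow_le_pow_left ?_ 42), h3⟩
  calc U ≤ 2 ^ U := Nat.lt_two_pow_self.le
    _ ≤ 2 ^ U * T := Nat.le_mul_of_pos_right _ hT

/-- the coefficient vectors with a solution in a range of heights -/
def Bad (H T U : ℕ) : Set (Fin 3 → ℤ) :=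
  {A | (∀ i, A i ≠ 0 ∧ |A i| ≤ H) ∧ ∃ v : Fin 3 → ℕ, IsFC v ∧ (∀ i, v i ≤ U ^ 42) ∧
    (∃ i, T ^ 42 ≤ v i) ∧ ∑ i, A i * (v i : ℤ) = 0}

theorem bad_sub (H T U : ℕ) [DecidableEq (Fin 3 → ℤ)] [DecidablePred IsFC] :
    Bad H T U ⊆ (((Sh T U).filter IsFC).biUnion (Sol H) : Finset (Fin 3 → ℤ)) := by
  rintro A ⟨h1, v, h2, h3, ⟨i, h4⟩, h5⟩
  rw [Finset.mem_coe, Finset.mem_biUnion]
  exact ⟨v, Finset.mem_filter.2 ⟨mem_Sh.2 ⟨h2.1, h3, h4.trans (le_hgt v i)⟩, h2⟩,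
    mem_Sol.2 ⟨fun i => (h1 i).2, h5⟩⟩

theorem bad_fin (H T U : ℕ) : (Bad H T U).Finite := by
  classical
  exact (Finset.finite_toSet _).subset (bad_sub H T U)

theorem upper (H T U : ℕ) (hH : 1 ≤ H) (hT : 1 ≤ T) (hU : 1 ≤ U) :
    ((Bad H T U).ncard : ℝ) ≤ 6 * K1 * 2 ^ 42 * ((H : ℝ) ^ 2 / T + H * (U : ℝ) ^ 41) := by
  classical
  have hTr : (0 : ℝ) < T := by exact_mod_cast hT
  have hHr : (0 : ℝ) < H := by exact_mod_cast hH
  have h1 : (Bad H T U).ncard ≤ (((Sh T U).filter IsFC).biUnion (Sol H)).card := by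
    rw [← Set.ncard_coe_finset]
    exact Set.ncard_le_ncard (bad_sub H T U) (Finset.finite_toSet _)
  have h2 : ((Bad H T U).ncard : ℝ) ≤ ∑ v ∈ (Sh T U).filter IsFC, ((Sol H v).card : ℝ) := by
    exact_mod_cast h1.trans Finset.card_biUnion_le
  refine h2.trans ?_
  have h3 : ∀ v ∈ (Sh T U).filter IsFC, ((Sol H v).card : ℝ) ≤
      6 * (H : ℝ) ^ 2 * (1 / hgt v) + 3 * H := fun v hv => card_Sol' hH (Finset.mem_filter.1 hv).2
  refine (Finset.sum_le_sum h3).trans ?_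
  refine (Finset.sum_le_sum_of_subset_of_nonneg (Finset.filter_subset _ _)
    (fun v _ _ => by positivity)).trans ?_
  rw [Finset.sum_add_distrib, ← Finset.mul_sum, Finset.sum_const, nsmul_eq_mul]
  have h4 := tail_sum T U hT
  have h5 : ((Sh T U).card : ℝ) ≤ K1 * (U : ℝ) ^ 41 := by exact_mod_cast card_Sh T U hU
  have h6 : 6 * (H : ℝ) ^ 2 * ∑ v ∈ Sh T U, 1 / (hgt v : ℝ) ≤ 6 * (H : ℝ) ^ 2 * (K1 * 2 ^ 42 / T) :=
    mul_le_mul_of_nonneg_left h4 (by positivity)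
  have h7 : ((Sh T U).card : ℝ) * (3 * H) ≤ K1 * (U : ℝ) ^ 41 * (3 * H) :=
    mul_le_mul_of_nonneg_right h5 (by positivity)
  have h8 : (0 : ℝ) ≤ K1 * (U : ℝ) ^ 41 * H := by positivity
  have e1 : 6 * (H : ℝ) ^ 2 * (K1 * 2 ^ 42 / T) = 6 * K1 * 2 ^ 42 * ((H : ℝ) ^ 2 / T) := by ring
  rw [e1] at h6
  have e2 : 6 * (K1 : ℝ) * 2 ^ 42 * ((H : ℝ) ^ 2 / T + H * (U : ℝ) ^ 41) =
      6 * K1 * 2 ^ 42 * ((H : ℝ) ^ 2 / T) + 6 * 2 ^ 42 * (K1 * (U : ℝ) ^ 41 * H) := by ring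
  rw [e2]
  linarith

end Pool.Agent.U580.FC
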