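import Mathlib
import Pool.Agent.U580.FC.Up
import Pool.Agent.U580.FC.Cop

set_option autoImplicit false

/-! # The family of triples with the exponents `2, 3, 7` -/

namespace Pool.Agent.U580.FC

open Finset

/-- the box -/
def Box (T : ℕ) : Finset (ℕ × ℕ × ℕ) :=
  Ico (T ^ 21) (T ^ 21 + T ^ 21) ×ˢ (Ico 0 (0 + T ^ 14) ×ˢ Ico 0 (0 + T ^ 6))

/-- pairwise coprime -/
def PC (z : ℕ × ℕ × ℕ) : Prop :=
  Nat.Coprime (210 * z.1 + 1) (210 * z.2.1 + 1) ∧ Nat.Coprime (210 * z.1 + 1) (210 * z.2.2 + 1) ∧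
    Nat.Coprime (210 * z.2.1 + 1) (210 * z.2.2 + 1)

instance : DecidablePred PC := fun z => by unfold PC; infer_instance

/-- the family -/
def Fam (T : ℕ) : Finset (ℕ × ℕ × ℕ) := (Box T).filter PC

theorem card_Box (T : ℕ) : (Box T).card = T ^ 41 := by
  unfold Box
  rw [Finset.card_product, Finset.card_product, Nat.card_Ico, Nat.card_Ico, Nat.card_Ico]
  have e1 : T ^ 21 + T ^ 21 - T ^ 21 = T ^ 21 := by omega
  rw [e1, zero_add, zero_add, Nat.sub_zero, Nat.sub_zero]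
  ring

theorem Fam_le (T : ℕ) : (Fam T).card ≤ T ^ 41 := by
  rw [← card_Box]
  exact Finset.card_filter_le _ _

theorem Fam_ge_aux (T : ℕ) : T ^ 41 ≤ (Fam T).card + ((NC (T ^ 21) (T ^ 21) 0 (T ^ 14)).card * T ^ 6 +
    (NC (T ^ 21) (T ^ 21) 0 (T ^ 6)).card * T ^ 14 + (NC 0 (T ^ 14) 0 (T ^ 6)).card * T ^ 21) := by
  classical
  have h1 : (Box T).card = (Fam T).card + ((Box T).filter fun z => ¬ PC z).card := by
    unfold Fam
    exact (Finset.card_filter_add_card_filter_not _).symm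
  rw [card_Box] at h1
  rw [h1]
  refine Nat.add_le_add_left ?_ _
  have hsub : (Box T).filter (fun z => ¬ PC z) ⊆
      ((Box T).filter (fun z => ¬ Nat.Coprime (210 * z.1 + 1) (210 * z.2.1 + 1)) ∪
      (Box T).filter (fun z => ¬ Nat.Coprime (210 * z.1 + 1) (210 * z.2.2 + 1))) ∪
      (Box T).filter (fun z => ¬ Nat.Coprime (210 * z.2.1 + 1) (210 * z.2.2 + 1)) := by
    intro z hz
    obtain ⟨h2, h3⟩ := Finset.mem_filter.1 hz
    unfold PC at h3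
    rw [Finset.mem_union, Finset.mem_union, Finset.mem_filter, Finset.mem_filter, Finset.mem_filter]
    tauto
  refine (Finset.card_le_card hsub).trans ((Finset.card_union_le _ _).trans ?_)
  refine Nat.add_le_add ((Finset.card_union_le _ _).trans (Nat.add_le_add ?_ ?_)) ?_
  · have e : (T ^ 6 : ℕ) = (Ico 0 (0 + T ^ 6)).card := by rw [Nat.card_Ico]; omega
    rw [e, ← Finset.card_product, zero_add]
    refine Finset.card_le_card_of_injOn (fun z => ((z.1, z.2.1), z.2.2)) ?_ ?_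
    · rintro ⟨u, v, w⟩ hz
      obtain ⟨h2, h3⟩ := Finset.mem_filter.1 hz
      obtain ⟨h4, h5⟩ := Finset.mem_product.1 h2
      obtain ⟨h6, h7⟩ := Finset.mem_product.1 h5
      refine Finset.mem_product.2 ⟨Finset.mem_filter.2 ⟨Finset.mem_product.2 ⟨h4, h6⟩, h3⟩, ?_⟩
      rw [zero_add] at h7
      exact h7
    · rintro ⟨u, v, w⟩ - ⟨u', v', w'⟩ - h
      simp only [Prod.mk.injEq] at h ⊢
      tauto
  · have e : (T ^ 14 : ℕ) = (Ico 0 (0 + T ^ 14)).card := by rw [Nat.card_Ico]; omega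
    rw [e, ← Finset.card_product, zero_add]
    refine Finset.card_le_card_of_injOn (fun z => ((z.1, z.2.2), z.2.1)) ?_ ?_
    · rintro ⟨u, v, w⟩ hz
      obtain ⟨h2, h3⟩ := Finset.mem_filter.1 hz
      obtain ⟨h4, h5⟩ := Finset.mem_product.1 h2
      obtain ⟨h6, h7⟩ := Finset.mem_product.1 h5
      refine Finset.mem_product.2 ⟨Finset.mem_filter.2 ⟨Finset.mem_product.2 ⟨h4, h7⟩, h3⟩, ?_⟩
      rw [zero_add] at h6
      exact h6
    · rintro ⟨u, v, w⟩ - ⟨u', v', w'⟩ - h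
      simp only [Prod.mk.injEq] at h ⊢
      tauto
  · have e : (T ^ 21 : ℕ) = (Ico (T ^ 21) (T ^ 21 + T ^ 21)).card := by rw [Nat.card_Ico]; omega
    conv_rhs => rw [e]
    rw [← Finset.card_product]
    refine Finset.card_le_card_of_injOn (fun z => ((z.2.1, z.2.2), z.1)) ?_ ?_
    · rintro ⟨u, v, w⟩ hz
      obtain ⟨h2, h3⟩ := Finset.mem_filter.1 hz
      obtain ⟨h4, h5⟩ := Finset.mem_product.1 h2
      obtain ⟨h6, h7⟩ := Finset.mem_product.1 h5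
      exact Finset.mem_product.2 ⟨Finset.mem_filter.2 ⟨Finset.mem_product.2 ⟨h6, h7⟩, h3⟩, h4⟩
    · rintro ⟨u, v, w⟩ - ⟨u', v', w'⟩ - h
      simp only [Prod.mk.injEq] at h ⊢
      tauto

theorem Fam_small (T : ℕ) (hT : 1 ≤ T) : T ^ 21 ≤ (Fam T).card := by
  have e : (T ^ 21 : ℕ) = (Ico (T ^ 21) (T ^ 21 + T ^ 21)).card := by rw [Nat.card_Ico]; omega
  conv_lhs => rw [e]
  refine Finset.card_le_card_of_injOn (fun u => (u, 0, 0)) ?_ ?_
  · intro u hu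
    refine Finset.mem_filter.2 ⟨Finset.mem_product.2 ⟨hu, Finset.mem_product.2 ⟨?_, ?_⟩⟩, ?_⟩
    · have : 0 < T ^ 14 := by positivity
      show 0 ∈ Ico 0 (0 + T ^ 14)
      rw [Finset.mem_Ico]
      exact ⟨le_rfl, by omega⟩
    · have : 0 < T ^ 6 := by positivity
      show 0 ∈ Ico 0 (0 + T ^ 6)
      rw [Finset.mem_Ico]
      exact ⟨le_rfl, by omega⟩
    · unfold PC
      simp
  · intro u _ w _ h
    simp only [Prod.mk.injEq] at h
    exact h.1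

theorem Fam_ge (T : ℕ) (hT : 1 ≤ T) : (T : ℝ) ^ 41 / 3 ^ 22 ≤ (Fam T).card := by
  rcases Nat.lt_or_ge T 4 with h | h
  · have h1 : (T : ℝ) ^ 21 ≤ (Fam T).card := by exact_mod_cast Fam_small T hT
    refine le_trans ?_ h1
    have hTr : (0 : ℝ) < T := by exact_mod_cast hT
    rw [div_le_iff₀ (by positivity)]
    have h2 : (T : ℝ) ≤ 3 := by
      have : T ≤ 3 := by omega
      exact_mod_cast this
    have h3 : (T : ℝ) ^ 20 ≤ 3 ^ 20 := pow_le_pow_left₀ hTr.le h2 20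
    calc (T : ℝ) ^ 41 = (T : ℝ) ^ 21 * (T : ℝ) ^ 20 := by ring
      _ ≤ (T : ℝ) ^ 21 * 3 ^ 20 := mul_le_mul_of_nonneg_left h3 (by positivity)
      _ ≤ (T : ℝ) ^ 21 * 3 ^ 22 := mul_le_mul_of_nonneg_left (by norm_num) (by positivity)
  · have h1 : (T : ℝ) ^ 41 ≤ (Fam T).card + (((NC (T ^ 21) (T ^ 21) 0 (T ^ 14)).card : ℝ) * T ^ 6 +
      ((NC (T ^ 21) (T ^ 21) 0 (T ^ 6)).card : ℝ) * T ^ 14 +
      ((NC 0 (T ^ 14) 0 (T ^ 6)).card : ℝ) * T ^ 21) := by exact_mod_cast Fam_ge_aux T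
    have p6 : 1 ≤ T ^ 6 := Nat.one_le_pow _ _ hT
    have p14 : 1 ≤ T ^ 14 := Nat.one_le_pow _ _ hT
    have q1 : T ^ 14 ≤ T ^ 21 := Nat.pow_le_pow_right hT (by norm_num)
    have q2 : T ^ 6 ≤ T ^ 21 := Nat.pow_le_pow_right hT (by norm_num)
    have q3 : T ^ 6 ≤ T ^ 14 := Nat.pow_le_pow_right hT (by norm_num)
    have c1 := card_NC (T ^ 21) (T ^ 21) (T ^ 14) p14 q1
    have c2 := card_NC (T ^ 21) (T ^ 21) (T ^ 6) p6 q2
    have c3 := card_NC 0 (T ^ 14) (T ^ 6) p6 q3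
    push_cast at c1 c2 c3
    have hTr : (4 : ℝ) ≤ T := by exact_mod_cast h
    have hT0 : (0 : ℝ) < T := by linarith
    have d1 := mul_le_mul_of_nonneg_right c1 (show (0 : ℝ) ≤ (T : ℝ) ^ 6 by positivity)
    have d2 := mul_le_mul_of_nonneg_right c2 (show (0 : ℝ) ≤ (T : ℝ) ^ 14 by positivity)
    have d3 := mul_le_mul_of_nonneg_right c3 (show (0 : ℝ) ≤ (T : ℝ) ^ 21 by positivity)
    have e1 : ((T : ℝ) ^ 21 * T ^ 14 / 5 + 210 * T ^ 21) * T ^ 6 = T ^ 41 / 5 + 210 * T ^ 27 := by ring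
    have e2 : ((T : ℝ) ^ 21 * T ^ 6 / 5 + 210 * T ^ 21) * T ^ 14 = T ^ 41 / 5 + 210 * T ^ 35 := by ring
    have e3 : ((T : ℝ) ^ 14 * T ^ 6 / 5 + 210 * T ^ 14) * T ^ 21 = T ^ 41 / 5 + 210 * T ^ 35 := by ring
    rw [e1] at d1
    rw [e2] at d2
    rw [e3] at d3
    have f6 : (4096 : ℝ) ≤ T ^ 6 := by
      calc (4096 : ℝ) = 4 ^ 6 := by norm_num
        _ ≤ T ^ 6 := pow_le_pow_left₀ (by norm_num) hTr 6
    have f14 : (4 ^ 14 : ℝ) ≤ T ^ 14 := pow_le_pow_left₀ (by norm_num) hTr 14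
    have g1 : (4096 : ℝ) * T ^ 35 ≤ T ^ 41 := by
      calc (4096 : ℝ) * T ^ 35 ≤ T ^ 6 * T ^ 35 := mul_le_mul_of_nonneg_right f6 (by positivity)
        _ = T ^ 41 := by ring
    have g2 : (4 ^ 14 : ℝ) * T ^ 27 ≤ T ^ 41 := by
      calc (4 ^ 14 : ℝ) * T ^ 27 ≤ T ^ 14 * T ^ 27 := mul_le_mul_of_nonneg_right f14 (by positivity)
        _ = T ^ 41 := by ring
    have hpos : (0 : ℝ) ≤ T ^ 41 := by positivity
    have hpos2 : (0 : ℝ) ≤ T ^ 27 := by positivity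
    have h5 : (T : ℝ) ^ 41 / 4 ≤ (Fam T).card := by
      have g2' : (268435456 : ℝ) * T ^ 27 ≤ T ^ 41 := by
        have : (4 ^ 14 : ℝ) = 268435456 := by norm_num
        rwa [this] at g2
      linarith
    refine le_trans ?_ h5
    exact div_le_div_of_nonneg_left hpos (by norm_num) (by norm_num)

/-- the value triple -/
def val (z : ℕ × ℕ × ℕ) : Fin 3 → ℕ :=
  ![(210 * z.1 + 1) ^ 2, (210 * z.2.1 + 1) ^ 3, (210 * z.2.2 + 1) ^ 7]

theorem val_inj : Function.Injective val := by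
  rintro ⟨u, v, w⟩ ⟨u', v', w'⟩ h
  have h0 := congrFun h 0
  have h1 := congrFun h 1
  have h2 := congrFun h 2
  have h0' : (210 * u + 1) ^ 2 = (210 * u' + 1) ^ 2 := h0
  have h1' : (210 * v + 1) ^ 3 = (210 * v' + 1) ^ 3 := h1
  have h2' : (210 * w + 1) ^ 7 = (210 * w' + 1) ^ 7 := h2
  have k0 := Nat.pow_left_injective (n := 2) (by norm_num) h0'
  have k1 := Nat.pow_left_injective (n := 3) (by norm_num) h1'
  have k2 := Nat.pow_left_injective (n := 7) (by norm_num) h2'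
  simp only [Prod.mk.injEq]
  omega

theorem val_fc {T : ℕ} {z : ℕ × ℕ × ℕ} (hz : z ∈ Fam T) : IsFC (val z) := by
  obtain ⟨h1, h2, h3, h4⟩ := Finset.mem_filter.1 hz
  refine ⟨⟨?_, ![2, 3, 7], ⟨?_, ?_⟩, ?_⟩, ?_⟩
  · intro i
    fin_cases i
    · show 0 < (210 * z.1 + 1) ^ 2
      positivity
    · show 0 < (210 * z.2.1 + 1) ^ 3
      positivity
    · show 0 < (210 * z.2.2 + 1) ^ 7
      positivity
  · decide
  · rw [Fin.sum_univ_three]
    show 1 / ((2 : ℕ) : ℚ) + 1 / ((3 : ℕ) : ℚ) + 1 / ((7 : ℕ) : ℚ) < 1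
    norm_num
  · intro i
    fin_cases i
    · exact ⟨210 * z.1 + 1, rfl⟩
    · exact ⟨210 * z.2.1 + 1, rfl⟩
    · exact ⟨210 * z.2.2 + 1, rfl⟩
  · have a1 : Nat.Coprime ((210 * z.1 + 1) ^ 2) ((210 * z.2.1 + 1) ^ 3) := h2.pow 2 3
    have a2 : Nat.Coprime ((210 * z.1 + 1) ^ 2) ((210 * z.2.2 + 1) ^ 7) := h3.pow 2 7
    have a3 : Nat.Coprime ((210 * z.2.1 + 1) ^ 3) ((210 * z.2.2 + 1) ^ 7) := h4.pow 3 7
    intro i j hij
    fin_cases i <;> fin_cases j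
    · exact absurd rfl hij
    · exact a1
    · exact a2
    · exact a1.symm
    · exact absurd rfl hij
    · exact a3
    · exact a2.symm
    · exact a3.symm
    · exact absurd rfl hij

theorem val_le {T : ℕ} {z : ℕ × ℕ × ℕ} (hz : z ∈ Fam T) (i : Fin 3) :
    val z i ≤ 210 ^ 7 * T ^ 42 := by
  obtain ⟨h1, -⟩ := Finset.mem_filter.1 hz
  obtain ⟨h2, h3⟩ := Finset.mem_product.1 h1
  obtain ⟨h4, h5⟩ := Finset.mem_product.1 h3
  rw [Finset.mem_Ico] at h2 h4 h5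
  fin_cases i
  · show (210 * z.1 + 1) ^ 2 ≤ _
    calc (210 * z.1 + 1) ^ 2 ≤ (420 * T ^ 21) ^ 2 := Nat.pow_le_pow_left (by omega) 2
      _ = 420 ^ 2 * T ^ 42 := by ring
      _ ≤ _ := Nat.mul_le_mul_right _ (by norm_num)
  · show (210 * z.2.1 + 1) ^ 3 ≤ _
    calc (210 * z.2.1 + 1) ^ 3 ≤ (210 * T ^ 14) ^ 3 := Nat.pow_le_pow_left (by omega) 3
      _ = 210 ^ 3 * T ^ 42 := by ring
      _ ≤ _ := Nat.mul_le_mul_right _ (by norm_num)
  · show (210 * z.2.2 + 1) ^ 7 ≤ _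
    calc (210 * z.2.2 + 1) ^ 7 ≤ (210 * T ^ 6) ^ 7 := Nat.pow_le_pow_left (by omega) 7
      _ = 210 ^ 7 * T ^ 42 := by ring

theorem val_ge {T : ℕ} {z : ℕ × ℕ × ℕ} (hz : z ∈ Fam T) : T ^ 42 ≤ val z 0 := by
  obtain ⟨h1, -⟩ := Finset.mem_filter.1 hz
  obtain ⟨h2, h3⟩ := Finset.mem_product.1 h1
  rw [Finset.mem_Ico] at h2
  show _ ≤ (210 * z.1 + 1) ^ 2
  calc T ^ 42 = (T ^ 21) ^ 2 := by ring
    _ ≤ (210 * z.1 + 1) ^ 2 := Nat.pow_le_pow_left (by omega) 2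

end Pool.Agent.U580.FC
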