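import Mathlib
import Pool.Agent.U580.FC.Fam

set_option autoImplicit false

/-! # The lower bound for random coefficients -/

namespace Pool.Agent.U580.FC

open Finset

/-- many solutions by the pigeonhole principle -/
theorem Sol_ge (H m : ℕ) (hH : 1 ≤ H) (hm : 1 ≤ m) (v : Fin 3 → ℕ) (hv : ∀ i, v i ≤ m) :
    (H : ℝ) ^ 2 / (4 * m) ≤ (Sol H v).card := by
  classical
  obtain ⟨P, hP⟩ : ∃ P : Finset (Fin 3 → ℤ), P = Fintype.piFinset fun _ : Fin 3 => Icc (0 : ℤ) H :=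
    ⟨_, rfl⟩
  have hPc : P.card = (H + 1) ^ 3 := by
    rw [hP, Fintype.card_piFinset, Finset.prod_const, Int.card_Icc, Finset.card_univ, Fintype.card_fin]
    congr 1
  have hmem : ∀ B ∈ P, ∀ i, 0 ≤ B i ∧ B i ≤ H := by
    intro B hB i
    rw [hP] at hB
    exact Finset.mem_Icc.1 (Fintype.mem_piFinset.1 hB i)
  obtain ⟨f, hf⟩ : ∃ f : (Fin 3 → ℤ) → ℤ, f = fun B => ∑ i, B i * (v i : ℤ) := ⟨_, rfl⟩
  have himg : P.image f ⊆ Icc (0 : ℤ) (3 * H * m) := by
    intro s hs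
    obtain ⟨B, hB, rfl⟩ := Finset.mem_image.1 hs
    rw [hf, Finset.mem_Icc]
    constructor
    · exact Finset.sum_nonneg fun i _ => mul_nonneg (hmem B hB i).1 (Nat.cast_nonneg _)
    · calc ∑ i, B i * (v i : ℤ) ≤ ∑ _i : Fin 3, (H : ℤ) * m := by
            refine Finset.sum_le_sum fun i _ => ?_
            exact mul_le_mul (hmem B hB i).2 (by exact_mod_cast hv i) (Nat.cast_nonneg _)
              (Nat.cast_nonneg _)
        _ = 3 * H * m := by
            rw [Finset.sum_const, Finset.card_univ, Fintype.card_fin, nsmul_eq_mul]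
            push_cast
            ring
  have hfib : ∀ s ∈ P.image f, (P.filter fun B => f B = s).card ≤ (Sol H v).card := by
    intro s hs
    obtain ⟨B₀, hB₀, rfl⟩ := Finset.mem_image.1 hs
    refine Finset.card_le_card_of_injOn (fun B => B - B₀) ?_ ?_
    · intro B hB
      obtain ⟨h1, h2⟩ := Finset.mem_filter.1 hB
      refine mem_Sol.2 ⟨fun i => ?_, ?_⟩
      · have a1 := hmem B h1 i
        have a2 := hmem B₀ hB₀ i
        show |B i - B₀ i| ≤ H
        rw [abs_le]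
        constructor <;> linarith
      · rw [hf] at h2
        simp only at h2
        have : ∑ i, (B - B₀) i * (v i : ℤ) = ∑ i, B i * (v i : ℤ) - ∑ i, B₀ i * (v i : ℤ) := by
          rw [← Finset.sum_sub_distrib]
          exact Finset.sum_congr rfl fun i _ => by rw [Pi.sub_apply]; ring
        rw [this, h2, sub_self]
    · intro B _ B' _ h
      exact sub_left_injective h
  have h1 := Finset.card_le_mul_card_image P (Sol H v).card hfib
  have h2 : (P.image f).card ≤ 3 * H * m + 1 := by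
    refine (Finset.card_le_card himg).trans ?_
    rw [Int.card_Icc]
    have : (3 * (H : ℤ) * m + 1 - 0).toNat = 3 * H * m + 1 := by
      have e : (3 * (H : ℤ) * m + 1 - 0) = ((3 * H * m + 1 : ℕ) : ℤ) := by push_cast; ring
      rw [e, Int.toNat_natCast]
    rw [this]
  rw [hPc] at h1
  have h3 : (H + 1) ^ 3 ≤ (Sol H v).card * (3 * H * m + 1) := h1.trans (Nat.mul_le_mul_left _ h2)
  have h3r : ((H : ℝ) + 1) ^ 3 ≤ (Sol H v).card * (3 * H * m + 1) := by exact_mod_cast h3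
  have hHr : (1 : ℝ) ≤ H := by exact_mod_cast hH
  have hmr : (1 : ℝ) ≤ m := by exact_mod_cast hm
  have h4 : (H : ℝ) ^ 3 ≤ ((H : ℝ) + 1) ^ 3 := pow_le_pow_left₀ (by linarith) (by linarith) 3
  have h5 : (3 * H * m + 1 : ℝ) ≤ 4 * m * H := by nlinarith
  have hc0 : (0 : ℝ) ≤ (Sol H v).card := Nat.cast_nonneg _
  have h6 : (H : ℝ) ^ 3 ≤ (Sol H v).card * (4 * m * H) :=
    h4.trans (h3r.trans (mul_le_mul_of_nonneg_left h5 hc0))
  rw [div_le_iff₀ (by positivity)]
  have h7 : (H : ℝ) * (H : ℝ) ^ 2 ≤ H * ((Sol H v).card * (4 * m)) := by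
    have e1 : (H : ℝ) * (H : ℝ) ^ 2 = (H : ℝ) ^ 3 := by ring
    have e2 : (H : ℝ) * ((Sol H v).card * (4 * m)) = (Sol H v).card * (4 * m * H) := by ring
    rw [e1, e2]
    exact h6
  exact le_of_mul_le_mul_left h7 (by linarith)

/-- two independent vectors -/
theorem card_two (H : ℕ) (v w : Fin 3 → ℕ) (i : Fin 3)
    (hne : (v i : ℤ) * w (i + 1) - v (i + 1) * w i ≠ 0) [DecidableEq (Fin 3 → ℤ)] :
    (Sol H v ∩ Sol H w).card ≤ 2 * H + 1 := by
  have hmaps : ∀ A ∈ Sol H v ∩ Sol H w, A (i + 2) ∈ Icc (-(H : ℤ)) H := by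
    intro A hA
    exact Finset.mem_Icc.2 (abs_le.1 ((mem_Sol.1 (Finset.mem_inter.1 hA).1).1 (i + 2)))
  have hinj : Set.InjOn (fun A : Fin 3 → ℤ => A (i + 2)) (Sol H v ∩ Sol H w : Finset _) := by
    intro A hA B hB hAB
    rw [Finset.mem_coe, Finset.mem_inter] at hA hB
    have a1 := (mem_Sol.1 hA.1).2
    have a2 := (mem_Sol.1 hA.2).2
    have b1 := (mem_Sol.1 hB.1).2
    have b2 := (mem_Sol.1 hB.2).2
    rw [sum_rot _ i] at a1 a2 b1 b2
    have h2 : A (i + 2) = B (i + 2) := hAB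
    rw [← h2] at b1 b2
    have e1 : (A i - B i) * ((v i : ℤ) * w (i + 1) - v (i + 1) * w i) = 0 := by
      linear_combination (w (i + 1) : ℤ) * (a1 - b1) - (v (i + 1) : ℤ) * (a2 - b2)
    have e2 : (A (i + 1) - B (i + 1)) * ((v i : ℤ) * w (i + 1) - v (i + 1) * w i) = 0 := by
      linear_combination (v i : ℤ) * (a2 - b2) - (w i : ℤ) * (a1 - b1)
    have e3 := (mul_eq_zero.1 e1).resolve_right hne
    have e4 := (mul_eq_zero.1 e2).resolve_right hne
    funext j
    rcases three_cases i j with rfl | rfl | rfl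
    · linarith
    · linarith
    · exact h2
  refine (Finset.card_le_card_of_injOn _ hmaps hinj).trans ?_
  rw [Int.card_Icc]
  omega

theorem indep {v w : Fin 3 → ℕ} (hv : IsFC v) (hw : IsFC w) (hne : v ≠ w) :
    ∃ i, (v i : ℤ) * w (i + 1) - v (i + 1) * w i ≠ 0 := by
  by_contra hno
  push Not at hno
  refine hne (funext fun i => ?_)
  have h1 : (v i : ℤ) * w (i + 1) = v (i + 1) * w i := by linarith [hno i]
  have h2 : v i * w (i + 1) = v (i + 1) * w i := by exact_mod_cast h1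
  have hi : i ≠ i + 1 := by fin_cases i <;> decide
  have c1 := hv.2 i (i + 1) hi
  have c2 := hw.2 i (i + 1) hi
  have d1 : v i ∣ w i := c1.dvd_of_dvd_mul_left (Dvd.intro _ h2)
  have d2 : w i ∣ v i := c2.dvd_of_dvd_mul_right (Dvd.intro_left (v (i + 1)) h2.symm)
  exact Nat.dvd_antisymm d1 d2

/-- the solutions with nonzero coordinates -/
noncomputable def Sol' (H : ℕ) (v : Fin 3 → ℕ) : Finset (Fin 3 → ℤ) := by
  classical
  exact (Sol H v).filter fun A => ∀ i, A i ≠ 0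

/-- few solutions with a zero coordinate -/
theorem card_zero (H : ℕ) (hH : 1 ≤ H) (v : Fin 3 → ℕ) (hv : ∀ i, 0 < v i) :
    (Sol H v).card ≤ (Sol' H v).card + 9 * H := by
  classical
  have h0 : (Sol H v).card = (Sol' H v).card + ((Sol H v).filter fun A => ¬ ∀ i, A i ≠ 0).card := by
    unfold Sol'
    exact (Finset.card_filter_add_card_filter_not _).symm
  rw [h0]
  refine Nat.add_le_add_left ?_ _
  have hsub : (Sol H v).filter (fun A => ¬ ∀ i, A i ≠ 0) ⊆
      (Finset.univ : Finset (Fin 3)).biUnion fun i => (Sol H v).filter fun A => A i = 0 := by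
    intro A hA
    obtain ⟨h1, h2⟩ := Finset.mem_filter.1 hA
    push Not at h2
    obtain ⟨i, hi⟩ := h2
    exact Finset.mem_biUnion.2 ⟨i, Finset.mem_univ _, Finset.mem_filter.2 ⟨h1, hi⟩⟩
  refine (Finset.card_le_card hsub).trans (Finset.card_biUnion_le.trans ?_)
  have h3 : ∀ i ∈ (Finset.univ : Finset (Fin 3)), ((Sol H v).filter fun A => A i = 0).card ≤ 3 * H := by
    intro i _
    have hmaps : ∀ A ∈ (Sol H v).filter (fun A => A i = 0), A (i + 2) ∈ Icc (-(H : ℤ)) H := by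
      intro A hA
      exact Finset.mem_Icc.2 (abs_le.1 ((mem_Sol.1 (Finset.mem_filter.1 hA).1).1 (i + 2)))
    have hinj : Set.InjOn (fun A : Fin 3 → ℤ => A (i + 2))
        ((Sol H v).filter (fun A => A i = 0) : Finset _) := by
      intro A hA B hB hAB
      obtain ⟨a1, a2⟩ := Finset.mem_filter.1 hA
      obtain ⟨b1, b2⟩ := Finset.mem_filter.1 hB
      have a3 := (mem_Sol.1 a1).2
      have b3 := (mem_Sol.1 b1).2
      rw [sum_rot _ i] at a3 b3
      have h2 : A (i + 2) = B (i + 2) := hAB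
      rw [← h2, b2] at b3
      rw [a2] at a3
      have hpos : (v (i + 1) : ℤ) ≠ 0 := by exact_mod_cast (hv (i + 1)).ne'
      have e : (A (i + 1) - B (i + 1)) * (v (i + 1) : ℤ) = 0 := by linear_combination a3 - b3
      have e1 := (mul_eq_zero.1 e).resolve_right hpos
      funext j
      rcases three_cases i j with rfl | rfl | rfl
      · rw [a2, b2]
      · linarith
      · exact h2
    refine (Finset.card_le_card_of_injOn _ hmaps hinj).trans ?_
    rw [Int.card_Icc]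
    omega
  refine (Finset.sum_le_sum h3).trans ?_
  rw [Finset.sum_const, Finset.card_univ, Fintype.card_fin, smul_eq_mul]
  omega

theorem bonf {α β : Type} [DecidableEq α] [DecidableEq β] (P : Finset α) (A : α → Finset β) :
    ∑ x ∈ P, (A x).card ≤ (P.biUnion A).card + ∑ x ∈ P, ∑ y ∈ P.erase x, (A x ∩ A y).card := by
  set U := P.biUnion A with hU
  have h1 : ∀ x ∈ P, (A x).card = ∑ F ∈ U, if F ∈ A x then 1 else 0 := by
    intro x hx
    rw [Finset.sum_boole, Finset.filter_mem_eq_inter, Finset.inter_eq_right.2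
      (Finset.subset_biUnion_of_mem A hx)]
    rfl
  have h2 : ∀ x ∈ P, ∀ y ∈ P.erase x, (A x ∩ A y).card =
      ∑ F ∈ U, (if F ∈ A x then 1 else 0) * (if F ∈ A y then 1 else 0) := by
    intro x hx y _
    have : ∀ F, ((if F ∈ A x then 1 else 0) * (if F ∈ A y then 1 else 0) : ℕ) =
        if F ∈ A x ∩ A y then 1 else 0 := by
      intro F
      by_cases h3 : F ∈ A x <;> by_cases h4 : F ∈ A y <;> simp [h3, h4]
    simp only [this]
    rw [Finset.sum_boole, Finset.filter_mem_eq_inter, Finset.inter_eq_right.2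
      (Finset.inter_subset_left.trans (Finset.subset_biUnion_of_mem A hx))]
    rfl
  rw [Finset.sum_congr rfl h1, Finset.sum_comm,
    Finset.sum_congr rfl (fun x hx => Finset.sum_congr rfl (h2 x hx)), Finset.card_eq_sum_ones]
  have h3 : ∑ x ∈ P, ∑ y ∈ P.erase x, ∑ F ∈ U,
      ((if F ∈ A x then 1 else 0) * (if F ∈ A y then 1 else 0) : ℕ) =
      ∑ F ∈ U, ∑ x ∈ P, ∑ y ∈ P.erase x,
        ((if F ∈ A x then 1 else 0) * (if F ∈ A y then 1 else 0) : ℕ) := by
    rw [Finset.sum_congr rfl (fun x _ => Finset.sum_comm), Finset.sum_comm]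
  rw [h3, ← Finset.sum_add_distrib]
  refine Finset.sum_le_sum fun F _ => ?_
  set a : α → ℕ := fun x => if F ∈ A x then 1 else 0 with ha
  have ha2 : ∀ x, a x * a x = a x := by
    intro x
    simp only [ha]
    split_ifs <;> rfl
  have h4 : ∀ x ∈ P, ∑ y ∈ P.erase x, a x * a y + a x = a x * ∑ y ∈ P, a y := by
    intro x hx
    rw [← Finset.mul_sum, ← Finset.add_sum_erase P a hx, mul_add, ha2]
    ring
  have h5 : ∑ x ∈ P, ∑ y ∈ P.erase x, a x * a y + ∑ x ∈ P, a x = (∑ x ∈ P, a x) * ∑ y ∈ P, a y := by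
    rw [← Finset.sum_add_distrib, Finset.sum_congr rfl h4, Finset.sum_mul]
  show ∑ x ∈ P, a x ≤ 1 + ∑ x ∈ P, ∑ y ∈ P.erase x, a x * a y
  set M := ∑ x ∈ P, a x with hM
  set W := ∑ x ∈ P, ∑ y ∈ P.erase x, a x * a y with hW
  rcases Nat.lt_or_ge M 2 with h | h
  · omega
  · nlinarith

theorem union_sub (H T U : ℕ) (hU : 3 * T ≤ U) [DecidableEq (Fin 3 → ℤ)] :
    (((Fam T).biUnion fun z => Sol' H (val z) : Finset (Fin 3 → ℤ)) : Set (Fin 3 → ℤ)) ⊆ Bad H T U := by
  intro A hA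
  rw [Finset.mem_coe, Finset.mem_biUnion] at hA
  obtain ⟨z, hz, hA⟩ := hA
  unfold Sol' at hA
  obtain ⟨h1, h2⟩ := Finset.mem_filter.1 hA
  obtain ⟨h3, h4⟩ := mem_Sol.1 h1
  refine ⟨fun i => ⟨h2 i, h3 i⟩, val z, val_fc hz, fun i => (val_le hz i).trans ?_, ⟨0, val_ge hz⟩, h4⟩
  calc 210 ^ 7 * T ^ 42 ≤ 3 ^ 42 * T ^ 42 := Nat.mul_le_mul_right _ (by norm_num)
    _ = (3 * T) ^ 42 := by ring
    _ ≤ U ^ 42 := Nat.pow_le_pow_left hU 42

theorem lower (H T U : ℕ) (hH : 1 ≤ H) (hT : 1 ≤ T) (hU : 3 * T ≤ U)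
    (hc : (72 : ℝ) * 210 ^ 7 * (T : ℝ) ^ 83 ≤ H) :
    (1 / (16 * 210 ^ 7 * 3 ^ 22) : ℝ) * ((H : ℝ) ^ 2 / T) ≤ ((Bad H T U).ncard : ℝ) := by
  classical
  have hTr : (1 : ℝ) ≤ T := by exact_mod_cast hT
  have hHr : (1 : ℝ) ≤ H := by exact_mod_cast hH
  obtain ⟨m, hm⟩ : ∃ m : ℕ, m = 210 ^ 7 * T ^ 42 := ⟨_, rfl⟩
  have hm1 : 1 ≤ m := by
    have : 0 < m := by rw [hm]; positivity
    exact this
  have hmr : (m : ℝ) = 210 ^ 7 * (T : ℝ) ^ 42 := by rw [hm]; push_cast; ring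
  have hm0 : (0 : ℝ) < m := by exact_mod_cast hm1
  -- single value triples
  have h1 : ∀ z ∈ Fam T, (H : ℝ) ^ 2 / (8 * m) ≤ ((Sol' H (val z)).card : ℝ) := by
    intro z hz
    have a1 := Sol_ge H m hH hm1 (val z) (fun i => by rw [hm]; exact val_le hz i)
    have a2 : ((Sol H (val z)).card : ℝ) ≤ (Sol' H (val z)).card + 9 * H := by
      exact_mod_cast card_zero H hH (val z) (val_fc hz).1.1
    have a3 : (72 : ℝ) * m ≤ H := by
      refine le_trans ?_ hc
      rw [hmr, ← mul_assoc]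
      exact mul_le_mul_of_nonneg_left (pow_le_pow_right₀ hTr (by norm_num)) (by positivity)
    have a4 : (9 : ℝ) * H ≤ (H : ℝ) ^ 2 / (8 * m) := by
      rw [le_div_iff₀ (by positivity)]
      nlinarith
    have a5 : (H : ℝ) ^ 2 / (4 * m) = (H : ℝ) ^ 2 / (8 * m) + (H : ℝ) ^ 2 / (8 * m) := by
      field_simp
      norm_num
    linarith
  -- pairs
  have h2 : ∀ z ∈ Fam T, ∀ y ∈ (Fam T).erase z,
      ((Sol' H (val z) ∩ Sol' H (val y)).card : ℝ) ≤ 3 * H := by
    intro z hz y hy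
    obtain ⟨hyz, hy⟩ := Finset.mem_erase.1 hy
    obtain ⟨i, hi⟩ := indep (val_fc hz) (val_fc hy) (fun h => hyz (val_inj h).symm)
    have a1 := card_two H (val z) (val y) i hi
    have a2 : Sol' H (val z) ∩ Sol' H (val y) ⊆ Sol H (val z) ∩ Sol H (val y) := by
      unfold Sol'
      exact Finset.inter_subset_inter (Finset.filter_subset _ _) (Finset.filter_subset _ _)
    have a3 : (Sol' H (val z) ∩ Sol' H (val y)).card ≤ 3 * H :=
      (Finset.card_le_card a2).trans (a1.trans (by omega))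
    exact_mod_cast a3
  -- Bonferroni
  obtain ⟨N, hN⟩ : ∃ N : ℝ, N = ((Fam T).card : ℝ) := ⟨_, rfl⟩
  have hN1 : (T : ℝ) ^ 41 / 3 ^ 22 ≤ N := by rw [hN]; exact Fam_ge T hT
  have hN2 : N ≤ (T : ℝ) ^ 41 := by rw [hN]; exact_mod_cast Fam_le T
  have hN0 : 0 ≤ N := by rw [hN]; exact Nat.cast_nonneg _
  have hb := bonf (Fam T) (fun z => Sol' H (val z))
  have hbr : ∑ z ∈ Fam T, ((Sol' H (val z)).card : ℝ) ≤
      (((Fam T).biUnion fun z => Sol' H (val z)).card : ℝ) +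
      ∑ z ∈ Fam T, ∑ y ∈ (Fam T).erase z, ((Sol' H (val z) ∩ Sol' H (val y)).card : ℝ) := by
    exact_mod_cast hb
  have b1 : N * ((H : ℝ) ^ 2 / (8 * m)) ≤ ∑ z ∈ Fam T, ((Sol' H (val z)).card : ℝ) := by
    rw [hN, ← nsmul_eq_mul]
    exact Finset.card_nsmul_le_sum _ _ _ h1
  have b2 : ∑ z ∈ Fam T, ∑ y ∈ (Fam T).erase z, ((Sol' H (val z) ∩ Sol' H (val y)).card : ℝ) ≤
      N * (N * (3 * H)) := by
    have b3 : ∀ z ∈ Fam T, ∑ y ∈ (Fam T).erase z, ((Sol' H (val z) ∩ Sol' H (val y)).card : ℝ) ≤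
        N * (3 * H) := by
      intro z hz
      refine (Finset.sum_le_card_nsmul _ _ _ (h2 z hz)).trans ?_
      rw [nsmul_eq_mul]
      refine mul_le_mul_of_nonneg_right ?_ (by positivity)
      rw [hN]
      exact_mod_cast Finset.card_le_card (Finset.erase_subset _ _)
    refine (Finset.sum_le_card_nsmul _ _ _ b3).trans (le_of_eq ?_)
    rw [nsmul_eq_mul, hN]
  have b4 : N * (3 * H) ≤ (H : ℝ) ^ 2 / (16 * m) := by
    rw [le_div_iff₀ (by positivity), hmr]
    calc N * (3 * H) * (16 * (210 ^ 7 * (T : ℝ) ^ 42)) ≤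
          (T : ℝ) ^ 41 * (3 * H) * (16 * (210 ^ 7 * (T : ℝ) ^ 42)) := by
          refine mul_le_mul_of_nonneg_right (mul_le_mul_of_nonneg_right hN2 (by positivity))
            (by positivity)
      _ = H * (48 * 210 ^ 7 * (T : ℝ) ^ 83) := by ring
      _ ≤ H * (72 * 210 ^ 7 * (T : ℝ) ^ 83) := by
          refine mul_le_mul_of_nonneg_left ?_ (by positivity)
          refine mul_le_mul_of_nonneg_right (by norm_num) (by positivity)
      _ ≤ H * H := mul_le_mul_of_nonneg_left hc (by positivity)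
      _ = (H : ℝ) ^ 2 := by ring
  have b5 : N * (N * (3 * H)) ≤ N * ((H : ℝ) ^ 2 / (16 * m)) := mul_le_mul_of_nonneg_left b4 hN0
  have b6 : (H : ℝ) ^ 2 / (8 * m) = (H : ℝ) ^ 2 / (16 * m) + (H : ℝ) ^ 2 / (16 * m) := by
    field_simp
    norm_num
  have b7 : N * ((H : ℝ) ^ 2 / (16 * m)) ≤ (((Fam T).biUnion fun z => Sol' H (val z)).card : ℝ) := by
    rw [b6, mul_add] at b1
    linarith
  have b8 : (((Fam T).biUnion fun z => Sol' H (val z)).card : ℝ) ≤ ((Bad H T U).ncard : ℝ) := by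
    rw [← Set.ncard_coe_finset]
    exact_mod_cast Set.ncard_le_ncard (union_sub H T U hU) (bad_fin H T U)
  refine le_trans ?_ (b7.trans b8)
  calc (1 / (16 * 210 ^ 7 * 3 ^ 22) : ℝ) * ((H : ℝ) ^ 2 / T)
      = (T : ℝ) ^ 41 / 3 ^ 22 * ((H : ℝ) ^ 2 / (16 * m)) := by
        rw [hmr]
        field_simp
    _ ≤ N * ((H : ℝ) ^ 2 / (16 * m)) := mul_le_mul_of_nonneg_right hN1 (by positivity)

end Pool.Agent.U580.FC
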